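import Pool.Agent.H841.Asym

/-!
Choice of the parameters: the number of blocks is a power of the logarithm of the number of labels
(in base `b`), so the system has no more than `b ^ t` labels with `q = t ^ 18` blocks.
-/

namespace Pool.Agent.Y835.ZM

open Finset Real Filter Topology Pool.Agent.H841

lemma pw (ε : ℝ) (h0 : 0 ≤ ε) : ∀ n : ℕ, (n : ℝ) * ε ≤ 1 / 2 → (1 + ε) ^ n ≤ 1 + 2 * (n * ε) := by
  intro n
  induction n with
  | zero => intro _; simp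
  | succ n ih =>
    intro h
    push_cast at h ⊢
    have h1 : (n : ℝ) * ε ≤ 1 / 2 := by nlinarith
    have h2 := ih h1
    have hn : (0 : ℝ) ≤ n := Nat.cast_nonneg n
    calc (1 + ε) ^ (n + 1) = (1 + ε) ^ n * (1 + ε) := pow_succ _ _
      _ ≤ (1 + 2 * (n * ε)) * (1 + ε) := mul_le_mul_of_nonneg_right h2 (by linarith)
      _ ≤ 1 + 2 * ((n + 1) * ε) := by nlinarith [mul_nonneg h0 (sub_nonneg.2 h1)]

lemma pw2 (ε : ℝ) (h1 : ε ≤ 1) (n : ℕ) : 1 - n * ε ≤ (1 - ε) ^ n := by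
  have a2 : 1 + (n : ℝ) * (-ε) ≤ (1 + (-ε)) ^ n := one_add_mul_le_pow (by linarith) n
  have h3 : (1 - ε) = (1 + (-ε)) := by ring
  rw [h3]
  linarith

lemma Dd_small (ε : ℝ) (h0 : 0 ≤ ε) (h1 : ε ≤ 1) (n : ℕ) (h : (n : ℝ) * ε ≤ 1 / 2) :
    Dd ε n ≤ 3 * (n * ε) := by
  have h2 := pw ε h0 n h
  have h3 := pw2 ε h1 n
  unfold Dd
  linarith

/-- The numerical inequality. -/
lemma final_num (x u ε τ P P' T1 : ℝ) (hx : 1000000 ≤ x) (hxu : x * u = 1) (he0 : 0 ≤ ε)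
    (he : ε ≤ u ^ 81) (hτ0 : 0 ≤ τ) (hτ : τ ≤ u ^ 5) (hP : P ≤ 2) (hP0' : 0 ≤ P')
    (hP' : P' ≤ 2) (hT : T1 ≤ 1 / 8) :
    T1 + 2 * ((8 * x) * (ε / u ^ 60 * P') + ((8 * x) * P * τ +
      P * ((4 * x) ^ 2 * ((1 + ε) * (8 * u ^ 16) + τ) + 2 * (4 * x) ^ 4 *
        (τ + (1 + ε) ^ 2 * (x ^ 18) ^ 3 * u ^ 60)))) < 1 / 2 := by
  have hx0 : 0 < x := by linarith
  have hu0 : 0 < u := by
    by_contra hcon
    push Not at hcon
    nlinarith
  have hu : u ≤ 1 / 1000000 := by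
    have : 1000000 * u ≤ x * u := mul_le_mul_of_nonneg_right hx hu0.le
    linarith
  have hu1 : u ≤ 1 := by linarith
  have hpow : ∀ n : ℕ, 1 ≤ n → u ^ n ≤ u := fun n hn => by
    calc u ^ n ≤ u ^ 1 := pow_le_pow_of_le_one hu0.le hu1 hn
      _ = u := pow_one u
  have he1 : ε ≤ 1 := he.trans (pow_le_one₀ hu0.le hu1)
  have a1 : ε / u ^ 60 ≤ u ^ 21 := by
    rw [div_le_iff₀ (by positivity), ← pow_add]
    exact he
  have a3 : (1 + ε) * (8 * u ^ 16) + τ ≤ 2 * u ^ 5 := by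
    have h1 : (1 + ε) * (8 * u ^ 16) ≤ 2 * (8 * u ^ 16) :=
      mul_le_mul_of_nonneg_right (by linarith) (by positivity)
    have h2 : u ^ 16 = u ^ 11 * u ^ 5 := by ring
    have h3 := hpow 11 (by norm_num)
    have h4 : u ^ 11 * u ^ 5 ≤ (1 / 1000000) * u ^ 5 :=
      mul_le_mul_of_nonneg_right (h3.trans hu) (by positivity)
    have h5 : 0 < u ^ 5 := by positivity
    rw [h2] at h1
    rw [h2]
    linarith
  have a4 : (1 + ε) ^ 2 * (x ^ 18) ^ 3 * u ^ 60 ≤ u ^ 5 := by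
    have h1 : (1 + ε) ^ 2 * (x ^ 18) ^ 3 * u ^ 60 = (1 + ε) ^ 2 * ((x * u) ^ 54 * u ^ 6) := by ring
    rw [h1, hxu, one_pow, one_mul]
    have h2 : (1 + ε) ^ 2 ≤ 2 ^ 2 := pow_le_pow_left₀ (by linarith) (by linarith) 2
    have h3 : u ^ 6 = u * u ^ 5 := by ring
    have h5 : 0 < u ^ 5 := by positivity
    calc (1 + ε) ^ 2 * u ^ 6 ≤ 2 ^ 2 * u ^ 6 := mul_le_mul_of_nonneg_right h2 (by positivity)
      _ = (4 * u) * u ^ 5 := by ring
      _ ≤ 1 * u ^ 5 := mul_le_mul_of_nonneg_right (by linarith) h5.le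
      _ = u ^ 5 := one_mul _
  have a5 : τ + (1 + ε) ^ 2 * (x ^ 18) ^ 3 * u ^ 60 ≤ 2 * u ^ 5 := by linarith
  have b1 : (8 * x) * (ε / u ^ 60 * P') ≤ 16 * u := by
    have h1 : ε / u ^ 60 * P' ≤ u ^ 21 * 2 :=
      mul_le_mul a1 hP' hP0' (by positivity)
    calc (8 * x) * (ε / u ^ 60 * P') ≤ (8 * x) * (u ^ 21 * 2) :=
          mul_le_mul_of_nonneg_left h1 (by positivity)
      _ = 16 * ((x * u) * u ^ 20) := by ring
      _ = 16 * u ^ 20 := by rw [hxu, one_mul]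
      _ ≤ 16 * u := by linarith [hpow 20 (by norm_num)]
  have b2 : (8 * x) * P * τ ≤ 16 * u := by
    calc (8 * x) * P * τ ≤ (8 * x) * 2 * u ^ 5 :=
          mul_le_mul (mul_le_mul_of_nonneg_left hP (by positivity)) hτ hτ0 (by positivity)
      _ = 16 * ((x * u) * u ^ 4) := by ring
      _ = 16 * u ^ 4 := by rw [hxu, one_mul]
      _ ≤ 16 * u := by linarith [hpow 4 (by norm_num)]
  have b3 : (4 * x) ^ 2 * ((1 + ε) * (8 * u ^ 16) + τ) ≤ 32 * u := by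
    calc (4 * x) ^ 2 * ((1 + ε) * (8 * u ^ 16) + τ) ≤ (4 * x) ^ 2 * (2 * u ^ 5) :=
          mul_le_mul_of_nonneg_left a3 (by positivity)
      _ = 32 * ((x * u) ^ 2 * u ^ 3) := by ring
      _ = 32 * u ^ 3 := by rw [hxu, one_pow, one_mul]
      _ ≤ 32 * u := by linarith [hpow 3 (by norm_num)]
  have b4 : 2 * (4 * x) ^ 4 * (τ + (1 + ε) ^ 2 * (x ^ 18) ^ 3 * u ^ 60) ≤ 1024 * u := by
    calc 2 * (4 * x) ^ 4 * (τ + (1 + ε) ^ 2 * (x ^ 18) ^ 3 * u ^ 60)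
        ≤ 2 * (4 * x) ^ 4 * (2 * u ^ 5) := mul_le_mul_of_nonneg_left a5 (by positivity)
      _ = 1024 * ((x * u) ^ 4 * u) := by ring
      _ = 1024 * u := by rw [hxu, one_pow, one_mul]
  have b5 : P * ((4 * x) ^ 2 * ((1 + ε) * (8 * u ^ 16) + τ) + 2 * (4 * x) ^ 4 *
        (τ + (1 + ε) ^ 2 * (x ^ 18) ^ 3 * u ^ 60)) ≤ 2 * (1056 * u) := by
    apply mul_le_mul hP (by linarith) (by positivity) (by norm_num)
  linarith

/-- The bound of the `L¹` steps. -/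
lemma Tm_small (x u ε lN : ℝ) (N : ℝ) (V : ℕ) (hx : 1000000 ≤ x) (hxu : x * u = 1) (he0 : 0 ≤ ε)
    (he : ε ≤ u ^ 81) (hV : (V : ℝ) = 8 * x) (hlN : Real.log N = lN) (hlN0 : 0 ≤ lN)
    (hlN1 : lN ≤ x ^ 2) :
    Tm ε (u ^ 16) (u ^ 2 / 20) N V ≤ u ^ 5 := by
  have hx0 : 0 < x := by linarith
  have hu0 : 0 < u := by
    by_contra hcon
    push Not at hcon
    nlinarith
  have hu : u ≤ 1 / 1000000 := by
    have : 1000000 * u ≤ x * u := mul_le_mul_of_nonneg_right hx hu0.le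
    linarith
  have hu1 : u ≤ 1 := by linarith
  have hpow : ∀ n : ℕ, 1 ≤ n → u ^ n ≤ u := fun n hn => by
    calc u ^ n ≤ u ^ 1 := pow_le_pow_of_le_one hu0.le hu1 hn
      _ = u := pow_one u
  have he1 : ε ≤ 1 := he.trans (pow_le_one₀ hu0.le hu1)
  have hVe : (V : ℝ) * ε ≤ 8 * u ^ 80 := by
    rw [hV]
    calc 8 * x * ε ≤ 8 * x * u ^ 81 := mul_le_mul_of_nonneg_left he (by positivity)
      _ = 8 * ((x * u) * u ^ 80) := by ring
      _ = 8 * u ^ 80 := by rw [hxu, one_mul]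
  have hVe' : (V : ℝ) * ε ≤ 1 / 2 := by
    have := hpow 80 (by norm_num)
    linarith
  have hP : (1 + ε) ^ V ≤ 2 := by
    have := pw ε he0 V hVe'
    linarith
  have hP0 : 0 ≤ (1 + ε) ^ V := by positivity
  have hD : Dd ε V ≤ 24 * u ^ 80 := by
    have := Dd_small ε he0 he1 V hVe'
    linarith
  have hD0 : 0 ≤ Dd ε V := Dd_nonneg ε he0 he1 V
  have hin : u ^ 16 * ((1 + ε) ^ V * (V * Real.log N) + 1) ≤ 17 * u ^ 13 := by
    rw [hlN, hV]
    have h1 : (1 + ε) ^ V * (8 * x * lN) ≤ 2 * (8 * x * x ^ 2) :=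
      mul_le_mul hP (mul_le_mul_of_nonneg_left hlN1 (by positivity)) (by positivity) (by norm_num)
    have h2 : (1 : ℝ) ≤ x ^ 3 := one_le_pow₀ (by linarith)
    calc u ^ 16 * ((1 + ε) ^ V * (8 * x * lN) + 1) ≤ u ^ 16 * (17 * x ^ 3) :=
          mul_le_mul_of_nonneg_left (by nlinarith) (by positivity)
      _ = 17 * ((x * u) ^ 3 * u ^ 13) := by ring
      _ = 17 * u ^ 13 := by rw [hxu, one_pow, one_mul]
  have hin0 : 0 ≤ u ^ 16 * ((1 + ε) ^ V * (V * Real.log N) + 1) := by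
    rw [hlN]; positivity
  have hinv : 1 / (u ^ 2 / 20) = 20 * x ^ 2 := by
    have hx2 : x = 1 / u := by
      field_simp
      exact hxu
    rw [hx2]
    field_simp
  have hH : Hm ε (u ^ 16) (u ^ 2 / 20) N V ≤ 341 * u ^ 11 := by
    unfold Hm
    rw [hinv]
    have h1 : Dd ε V * (13 / 5) + u ^ 16 * ((1 + ε) ^ V * (V * Real.log N) + 1) ≤
        63 * u ^ 80 + 17 * u ^ 13 := by
      have : 0 ≤ u ^ 80 := by positivity
      linarith
    have h2 : 20 * x ^ 2 * (Dd ε V * (13 / 5) + u ^ 16 * ((1 + ε) ^ V * (V * Real.log N) + 1)) ≤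
        20 * x ^ 2 * (63 * u ^ 80 + 17 * u ^ 13) := mul_le_mul_of_nonneg_left h1 (by positivity)
    have h3 : 20 * x ^ 2 * (63 * u ^ 80 + 17 * u ^ 13) = 1260 * u ^ 78 + 340 * u ^ 11 := by
      calc 20 * x ^ 2 * (63 * u ^ 80 + 17 * u ^ 13)
          = 1260 * ((x * u) ^ 2 * u ^ 78) + 340 * ((x * u) ^ 2 * u ^ 11) := by ring
        _ = 1260 * u ^ 78 + 340 * u ^ 11 := by rw [hxu, one_pow, one_mul, one_mul]
    have h4 : u ^ 80 ≤ u * u ^ 11 := by
      calc u ^ 80 ≤ u ^ 12 := pow_le_pow_of_le_one hu0.le hu1 (by norm_num)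
        _ = u * u ^ 11 := by ring
    have h5 : u ^ 78 ≤ u * u ^ 11 := by
      calc u ^ 78 ≤ u ^ 12 := pow_le_pow_of_le_one hu0.le hu1 (by norm_num)
        _ = u * u ^ 11 := by ring
    have h6 : u * u ^ 11 ≤ (1 / 1000000) * u ^ 11 := mul_le_mul_of_nonneg_right hu (by positivity)
    have h7 : 0 ≤ u ^ 11 := by positivity
    linarith
  have hH0 : 0 ≤ Hm ε (u ^ 16) (u ^ 2 / 20) N V := by
    unfold Hm
    rw [hinv]
    positivity
  unfold Tm
  apply Real.sqrt_le_iff.2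
  refine ⟨by positivity, ?_⟩
  calc 2 * Hm ε (u ^ 16) (u ^ 2 / 20) N V * (2 * (1 + ε) ^ V)
      ≤ 2 * (341 * u ^ 11) * (2 * 2) :=
        mul_le_mul (mul_le_mul_of_nonneg_left hH (by norm_num))
          (mul_le_mul_of_nonneg_left hP (by norm_num)) (by positivity) (by positivity)
    _ = (2728 * u) * (u ^ 5) ^ 2 := by ring
    _ ≤ 1 * (u ^ 5) ^ 2 := mul_le_mul_of_nonneg_right (by linarith) (by positivity)
    _ = (u ^ 5) ^ 2 := one_mul _

lemma exp_small (z : ℝ) (hz : z ≤ -3) : Real.exp z ≤ 1 / 8 := by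
  have h1 : (8 : ℝ) ≤ Real.exp 3 := by
    have h2 : Real.exp 3 = Real.exp 1 ^ 3 := by
      rw [← Real.exp_nat_mul]; norm_num
    rw [h2]
    calc (8 : ℝ) = 2 ^ 3 := by norm_num
      _ ≤ Real.exp 1 ^ 3 := pow_le_pow_left₀ (by norm_num)
          (by have := Real.exp_one_gt_d9; linarith) 3
  calc Real.exp z ≤ Real.exp (-3) := Real.exp_le_exp.2 hz
    _ = 1 / Real.exp 3 := by rw [Real.exp_neg, one_div]
    _ ≤ 1 / 8 := one_div_le_one_div_of_le (by norm_num) h1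

/-- There is no system with `t ^ 18` blocks and at most `b ^ t` labels, if `t ^ 100 ≤ b ≤ e ^ t` and
`t` is large. -/
theorem no_sys2 (t : ℕ) (ht : 1000000 ≤ t) (b : ℕ) (hb1 : t ^ 100 ≤ b) (hb2 : Real.log b ≤ t)
    (R Q ι : Type) [Fintype R] [Fintype Q] [DecidableEq ι] [Fintype ι] [Nonempty R] [Nonempty Q]
    (hcard : Fintype.card ι ≤ b ^ t) (s : Sys (t ^ 18) b R Q ι) : False := by
  set x : ℝ := (t : ℝ) with hx
  have hx1 : (1000000 : ℝ) ≤ x := by rw [hx]; exact_mod_cast ht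
  have hx0 : 0 < x := by linarith
  set u : ℝ := x⁻¹ with hu
  have hxu : x * u = 1 := mul_inv_cancel₀ hx0.ne'
  have hu0 : 0 < u := by positivity
  have hbR : x ^ 100 ≤ (b : ℝ) := by rw [hx]; exact_mod_cast hb1
  have hb0 : (0 : ℝ) < b := lt_of_lt_of_le (by positivity) hbR
  have hbN : 1 ≤ b := by exact_mod_cast hb0
  have hqx : ((t ^ 18 : ℕ) : ℝ) = x ^ 18 := by push_cast; rfl
  set L : ℝ := Real.log b with hL
  set lt : ℝ := Real.log x with hlt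
  have hlt1 : 1 ≤ lt := by
    rw [hlt, Real.le_log_iff_exp_le hx0]
    have := Real.exp_one_lt_d9
    linarith
  have hLlt : 100 * lt ≤ L := by
    have h1 := Real.log_le_log (by positivity) hbR
    rw [Real.log_pow] at h1
    push_cast at h1
    exact h1
  have hL40 : 40 ≤ L := by linarith
  set ε : ℝ := 3 * ((t ^ 18 : ℕ) : ℝ) / b with hε
  have hε0 : 0 ≤ ε := by rw [hε]; positivity
  have hε1 : ε ≤ u ^ 81 := by
    rw [hε, hqx, div_le_iff₀ hb0]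
    calc 3 * x ^ 18 ≤ x * x ^ 18 := mul_le_mul_of_nonneg_right (by linarith) (by positivity)
      _ = (x * u) ^ 81 * (x * x ^ 18) := by rw [hxu, one_pow, one_mul]
      _ = u ^ 81 * x ^ 100 := by ring
      _ ≤ u ^ 81 * b := mul_le_mul_of_nonneg_left hbR (by positivity)
  have hu6 : u ≤ 1 / 1000000 := by
    have : 1000000 * u ≤ x * u := mul_le_mul_of_nonneg_right hx1 hu0.le
    linarith
  have hu1 : u ≤ 1 := by linarith
  have hu81 : u ^ 81 ≤ u := by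
    calc u ^ 81 ≤ u ^ 1 := pow_le_pow_of_le_one hu0.le hu1 (by norm_num)
      _ = u := pow_one u
  set N : ℝ := (b : ℝ) ^ t with hN
  have hlN : Real.log N = x * L := by rw [hN, Real.log_pow]
  have hlN0 : 0 ≤ x * L := by positivity
  have hlN1 : x * L ≤ x ^ 2 := by
    rw [sq]
    exact mul_le_mul_of_nonneg_left hb2 hx0.le
  have key := s.final (u ^ 16) (u ^ 2 / 20) (by positivity)
    (by
      have : u ^ 16 ≤ u := by
        calc u ^ 16 ≤ u ^ 1 := pow_le_pow_of_le_one hu0.le hu1 (by norm_num)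
          _ = u := pow_one u
      linarith)
    (by positivity) hbN (Nat.one_le_pow _ _ (by omega)) hL40
    (by
      show ε < 1
      linarith)
    N (one_le_pow₀ (by exact_mod_cast hbN))
    (by rw [hN]; exact_mod_cast hcard)
    (by
      rw [hlN]
      have h1 : u ^ 2 * (x * L) ≤ u ^ 2 * x ^ 2 := mul_le_mul_of_nonneg_left hlN1 (by positivity)
      have h2 : u ^ 2 * x ^ 2 = 1 := by
        calc u ^ 2 * x ^ 2 = (x * u) ^ 2 := by ring
          _ = 1 := by rw [hxu, one_pow]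
      have h3 : u ^ 2 ≤ 1 := pow_le_one₀ hu0.le hu1
      linarith)
    (3 * x ^ 16)
    (by
      have h1 : u ^ 16 = (x ^ 16)⁻¹ := by rw [hu, inv_pow]
      rw [h1, div_inv_eq_mul]
      have h2 : 1 / (8 * (x ^ 16)⁻¹) = x ^ 16 / 8 := by field_simp
      rw [h2]
      have h3 := Real.log_le_sub_one_of_pos (show 0 < x ^ 16 / 8 by positivity)
      have h4 : 0 < x ^ 16 := by positivity
      linarith)
    (by
      rw [hqx]
      have h2 : Real.sqrt (x ^ 18 * (3 * x ^ 16)) ≤ 2 * x ^ 17 := by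
        apply Real.sqrt_le_iff.2
        refine ⟨by positivity, ?_⟩
        have : 0 ≤ x ^ 34 := by positivity
        calc x ^ 18 * (3 * x ^ 16) = 3 * x ^ 34 := by ring
          _ ≤ 4 * x ^ 34 := by linarith
          _ = (2 * x ^ 17) ^ 2 := by ring
      have h3 : x ^ 18 = x ^ 2 * x ^ 16 := by ring
      have h4 : x ^ 17 = x * x ^ 16 := by ring
      rw [h3] at h2 ⊢
      rw [h4] at h2
      have h5 : 0 < x ^ 16 := by positivity
      have h6 : (1 / 20 * x ^ 2 - 6 - 4 * x) * x ^ 16 ≥ 0 := by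
        apply mul_nonneg _ h5.le
        nlinarith
      nlinarith)
    (4 * t) (by omega) (u ^ 60) (by positivity)
  have hr2 : (((4 * t + 4 * t : ℕ)) : ℝ) = 8 * x := by push_cast; rw [← hx]; ring
  have hr1 : ((4 * t : ℕ) : ℝ) = 4 * x := by push_cast; rw [← hx]
  have hτ := Tm_small x u ε (x * L) N (4 * t + 4 * t) hx1 hxu hε0 hε1 hr2 hlN hlN0 hlN1
  have hτ0 : 0 ≤ Tm ε (u ^ 16) (u ^ 2 / 20) N (4 * t + 4 * t) := Real.sqrt_nonneg _
  have hVe : ((4 * t + 4 * t : ℕ) : ℝ) * ε ≤ 8 * u ^ 80 := by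
    rw [hr2]
    calc 8 * x * ε ≤ 8 * x * u ^ 81 := mul_le_mul_of_nonneg_left hε1 (by positivity)
      _ = 8 * ((x * u) * u ^ 80) := by ring
      _ = 8 * u ^ 80 := by rw [hxu, one_mul]
  have hu80 : u ^ 80 ≤ u := by
    calc u ^ 80 ≤ u ^ 1 := pow_le_pow_of_le_one hu0.le hu1 (by norm_num)
      _ = u := pow_one u
  have hVe' : ((4 * t + 4 * t : ℕ) : ℝ) * ε ≤ 1 / 2 := by linarith
  have hP : (1 + ε) ^ (4 * t + 4 * t) ≤ 2 := by
    have := pw ε hε0 _ hVe'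
    linarith
  have hP' : (1 + ε) ^ (4 * t + 4 * t - 1) ≤ 2 :=
    (pow_le_pow_right₀ (by linarith) (Nat.sub_le _ _)).trans hP
  have hleft : 1 / 2 ≤ (1 - ε) ^ (4 * t + 4 * t) := by
    have := pw2 ε (by linarith) (4 * t + 4 * t)
    linarith
  have hT1 : N ^ (4 * t + 4 * t) * (((t ^ 18 : ℕ) : ℝ) ^ (2 * (4 * t) ^ 2) *
      Real.exp (-((9 / 10) * (((4 * t : ℕ) : ℝ) ^ 2 * L)))) ≤ 1 / 8 := by
    have h1 : N ^ (4 * t + 4 * t) = Real.exp (((t * (4 * t + 4 * t) : ℕ) : ℝ) * L) := by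
      rw [hN, ← pow_mul, Real.exp_nat_mul, hL, Real.exp_log hb0]
    have h2 : ((t ^ 18 : ℕ) : ℝ) ^ (2 * (4 * t) ^ 2) =
        Real.exp (((18 * (2 * (4 * t) ^ 2) : ℕ) : ℝ) * lt) := by
      rw [hqx, ← pow_mul, Real.exp_nat_mul, hlt, Real.exp_log hx0]
    rw [h1, h2, ← Real.exp_add, ← Real.exp_add]
    apply exp_small
    rw [hr1]
    push_cast
    rw [← hx]
    have h3 : x ^ 2 * (100 * lt) ≤ x ^ 2 * L := mul_le_mul_of_nonneg_left hLlt (by positivity)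
    have h4 : 1 * 40 ≤ x ^ 2 * L := by
      apply mul_le_mul _ hL40 (by norm_num) (by positivity)
      nlinarith
    nlinarith
  have hfin := final_num x u ε (Tm ε (u ^ 16) (u ^ 2 / 20) N (4 * t + 4 * t))
    ((1 + ε) ^ (4 * t + 4 * t)) ((1 + ε) ^ (4 * t + 4 * t - 1)) _ hx1 hxu hε0 hε1 hτ0 hτ
    hP (by positivity) hP' hT1
  rw [hr2, hr1] at key
  rw [hr1, ← hqx] at hfin
  exact absurd (hleft.trans key) (not_le.2 hfin)

end Pool.Agent.Y835.ZM
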