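import Pool.Agent.H841.Super
import Pool.Agent.Y835.ZM.Num

/-!
From a zero-information protocol for a function which contains the function NO AGREEMENT on tuples
to a system.
-/

namespace Pool.Agent.Y835.ZM

open Finset Pool.Agent.H570R2 Pool.Agent.H841

attribute [local instance] AMProtocol.finR AMProtocol.finQ AMProtocol.neR AMProtocol.neQ

variable {X Y : Type}

/-- The labels of positive probability. -/
def LabG (P : AMProtocol X Y) (x0 : X) (y0 : Y) : Type :=
  {i : Fin P.m // 0 < pa P x0 i * pb P y0 i}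

open Classical in
noncomputable instance (P : AMProtocol X Y) (x0 : X) (y0 : Y) : Fintype (LabG P x0 y0) := by
  unfold LabG; infer_instance

open Classical in
noncomputable instance (P : AMProtocol X Y) (x0 : X) (y0 : Y) : DecidableEq (LabG P x0 y0) := by
  unfold LabG; infer_instance

lemma card_LabG (P : AMProtocol X Y) (x0 : X) (y0 : Y) : Fintype.card (LabG P x0 y0) ≤ P.m := by
  classical
  have h1 := Fintype.card_le_of_injective (fun i : LabG P x0 y0 => i.1) Subtype.val_injective
  rwa [Fintype.card_fin] at h1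

lemma sum_muG (P : AMProtocol X Y) (f : X → Y → Bool) (hP : P.IsZAM f) (x0 : X) (y0 : Y)
    (h00 : f x0 y0 = true) :
    ∑ i : LabG P x0 y0, pa P x0 i.1 * pb P y0 i.1 = 1 := by
  classical
  have hR : (0 : ℝ) < Fintype.card P.R := by exact_mod_cast Fintype.card_pos
  have hQ : (0 : ℝ) < Fintype.card P.Q := by exact_mod_cast Fintype.card_pos
  have h1 : ∑ i : Fin P.m, pa P x0 i * pb P y0 i = 1 := by
    simp only [← prob_hits, prob_real]
    rw [← Finset.sum_div, div_eq_one_iff_eq (by positivity), Finset.sum_comm]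
    have h2 : ∀ r : P.R, ∑ i : Fin P.m, ∑ s : P.Q,
        (if P.Hits x0 y0 r s i then (1 : ℝ) else 0) = ∑ _s : P.Q, (1 : ℝ) := by
      intro r
      rw [Finset.sum_comm]
      apply Finset.sum_congr rfl
      intro s _
      obtain ⟨i0, hi0⟩ := complete_all P f hP x0 y0 h00 r s
      rw [Finset.sum_eq_single i0]
      · rw [if_pos hi0]
      · intro i _ hne
        rw [if_neg]
        intro h3
        exact hne (hP.unambiguous _ _ h00 r s i i0 h3 hi0)
      · intro h; exact absurd (Finset.mem_univ _) h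
    rw [Finset.sum_congr rfl (fun r _ => h2 r)]
    simp
  have h2 : ∑ i : LabG P x0 y0, pa P x0 i.1 * pb P y0 i.1 =
      ∑ i ∈ univ.filter (fun i : Fin P.m => 0 < pa P x0 i * pb P y0 i),
        pa P x0 i * pb P y0 i :=
    Finset.sum_bij (fun i _ => i.1) (fun i _ => Finset.mem_filter.2 ⟨Finset.mem_univ _, i.2⟩)
      (fun i _ j _ h => Subtype.ext h)
      (fun i hi => ⟨⟨i, (Finset.mem_filter.1 hi).2⟩, Finset.mem_univ _, rfl⟩)
      (fun i _ => rfl)
  rw [h2, ← h1]
  apply Finset.sum_filter_of_ne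
  intro i _ hne
  exact lt_of_le_of_ne (mul_nonneg (pa_nonneg _ _ _) (pb_nonneg _ _ _)) hne.symm

open Classical in
/-- The system coming from a protocol. -/
noncomputable def toSysG {q b : ℕ} (P : AMProtocol X Y) (f : X → Y → Bool)
    (hP : P.IsZAM f) (x0 : X) (y0 : Y) (h00 : f x0 y0 = true)
    (φ : (Fin q → Fin b) → X) (ψ : (Fin q → Fin b) → Y) (hx : ∀ x, f (φ x) y0 = true)
    (hy : ∀ y, f x0 (ψ y) = true) (hxy : ∀ x y, f (φ x) (ψ y) = true ↔ ∀ l, x l ≠ y l) :
    Sys q b P.R P.Q (LabG P x0 y0) where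
  S := fun a => univ.filter (fun i : LabG P x0 y0 => (φ a.1, a.2) ∈ P.A i.1)
  T := fun c => univ.filter (fun i : LabG P x0 y0 => (ψ c.1, c.2) ∈ P.B i.1)
  z1 := by
    intro a c h
    have h1 := (hxy a.1 c.1).2 h
    obtain ⟨i, hi⟩ := complete_all P f hP _ _ h1 a.2 c.2
    have hpos : 0 < pa P x0 i * pb P y0 i := by
      rw [pa_mul_pb P f hP x0 (φ a.1) y0 (ψ c.1) h00 h1 i]
      exact pa_pb_pos P _ _ i a.2 c.2 hi
    rw [Finset.card_eq_one]
    let i1 : LabG P x0 y0 := ⟨i, hpos⟩
    refine ⟨i1, ?_⟩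
    ext j
    rw [Finset.mem_inter, Finset.mem_filter, Finset.mem_filter]
    constructor
    · intro hj
      exact Finset.mem_singleton.2
        (Subtype.ext (hP.unambiguous _ _ h1 a.2 c.2 j.1 i ⟨hj.1.2, hj.2.2⟩ hi))
    · intro hj
      have hj' : j = i1 := Finset.mem_singleton.1 hj
      subst hj'
      exact ⟨⟨Finset.mem_univ _, hi.1⟩, ⟨Finset.mem_univ _, hi.2⟩⟩
  z2 := by
    intro x y
    have hR : (0 : ℝ) < Fintype.card P.R := by exact_mod_cast Fintype.card_pos
    have hQ : (0 : ℝ) < Fintype.card P.Q := by exact_mod_cast Fintype.card_pos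
    have h1 : ∀ i : LabG P x0 y0, pa P (φ x) i.1 * pb P (ψ y) i.1 =
        pa P x0 i.1 * pb P y0 i.1 := by
      intro i
      have e1 := pa_mul_pb P f hP (φ x) x0 y0 y0 (hx x) h00 i.1
      have e2 := pa_mul_pb P f hP x0 x0 (ψ y) y0 (hy y) h00 i.1
      have hpos := i.2
      have hb0 : pb P y0 i.1 ≠ 0 := by
        intro h0
        rw [h0, mul_zero] at hpos
        exact lt_irrefl _ hpos
      have ha0 : pa P x0 i.1 ≠ 0 := by
        intro h0
        rw [h0, zero_mul] at hpos
        exact lt_irrefl _ hpos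
      have e3 := mul_right_cancel₀ hb0 e1
      have e4 := mul_left_cancel₀ ha0 e2
      rw [e3, e4]
    have h2 := sum_muG P f hP x0 y0 h00
    rw [← Finset.sum_congr rfl (fun i _ => h1 i)] at h2
    have h3 : ∀ r s, (((univ.filter (fun i : LabG P x0 y0 => (φ ((x, r) : (Fin q → Fin b) × P.R).1,
        ((x, r) : (Fin q → Fin b) × P.R).2) ∈ P.A i.1)) ∩
        (univ.filter (fun i : LabG P x0 y0 => (ψ ((y, s) : (Fin q → Fin b) × P.Q).1,
        ((y, s) : (Fin q → Fin b) × P.Q).2) ∈ P.B i.1))).card : ℝ) =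
        ∑ i : LabG P x0 y0, (if (φ x, r) ∈ P.A i.1 then (1 : ℝ) else 0) *
          (if (ψ y, s) ∈ P.B i.1 then (1 : ℝ) else 0) := by
      intro r s
      rw [← Finset.filter_and, Finset.card_eq_sum_ones]
      push_cast
      rw [Finset.sum_filter]
      apply Finset.sum_congr rfl
      intro i _
      by_cases g1 : (φ x, r) ∈ P.A i.1 <;> by_cases g2 : (ψ y, s) ∈ P.B i.1 <;>
        simp [g1, g2]
    simp only [h3]
    have h4 : ∑ r, ∑ s, ∑ i : LabG P x0 y0, (if (φ x, r) ∈ P.A i.1 then (1 : ℝ) else 0) *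
          (if (ψ y, s) ∈ P.B i.1 then (1 : ℝ) else 0) =
        ∑ i : LabG P x0 y0, (Fintype.card P.R * Fintype.card P.Q : ℝ) *
          (pa P (φ x) i.1 * pb P (ψ y) i.1) := by
      rw [Finset.sum_congr rfl (fun r _ => Finset.sum_comm), Finset.sum_comm]
      apply Finset.sum_congr rfl
      intro i _
      unfold pa pb
      rw [← Finset.sum_mul_sum]
      field_simp
    rw [h4, ← Finset.mul_sum, h2, mul_one]
  z3 := by
    intro x y hne
    have hR : (0 : ℝ) < Fintype.card P.R := by exact_mod_cast Fintype.card_pos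
    have hQ : (0 : ℝ) < Fintype.card P.Q := by exact_mod_cast Fintype.card_pos
    have h0 : f (φ x) (ψ y) = false := by
      rw [← Bool.not_eq_true, hxy]
      push Not
      exact hne
    have h1 := hP.soundness _ _ h0
    unfold AMProtocol.accProb at h1
    have h2 : ((P.prob (fun r q => ∃ i, P.Hits (φ x) (ψ y) r q i) : ℚ) : ℝ) ≤ 1 / 2 := by
      have := (Rat.cast_le (K := ℝ)).2 h1
      push_cast at this
      exact this
    rw [prob_real, div_le_iff₀ (by positivity)] at h2
    refine le_trans ?_ (h2.trans (le_of_eq (by ring)))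
    apply Finset.sum_le_sum
    intro r _
    apply Finset.sum_le_sum
    intro s _
    split_ifs with g1 g2 g2
    · exact le_rfl
    · exfalso
      apply g2
      obtain ⟨i, hi⟩ := g1
      rw [Finset.mem_inter, Finset.mem_filter, Finset.mem_filter] at hi
      exact ⟨i.1, hi.1.2, hi.2.2⟩
    · norm_num
    · exact le_rfl

/-- Lower bound for the number of labels, for every function which contains the function
NO AGREEMENT on tuples of length `t ^ 18` from an alphabet of size `b`. -/
theorem labels_gtG (t : ℕ) (ht : 1000000 ≤ t) (b : ℕ) (hb1 : t ^ 100 ≤ b) (hb2 : Real.log b ≤ t)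
    (P : AMProtocol X Y) (f : X → Y → Bool) (hP : P.IsZAM f) (x0 : X) (y0 : Y)
    (h00 : f x0 y0 = true) (φ : (Fin (t ^ 18) → Fin b) → X) (ψ : (Fin (t ^ 18) → Fin b) → Y)
    (hx : ∀ x, f (φ x) y0 = true) (hy : ∀ y, f x0 (ψ y) = true)
    (hxy : ∀ x y, f (φ x) (ψ y) = true ↔ ∀ l, x l ≠ y l) : b ^ t < P.m := by
  by_contra hcon
  push Not at hcon
  exact no_sys2 t ht b hb1 hb2 P.R P.Q (LabG P x0 y0) ((card_LabG P x0 y0).trans hcon)
    (toSysG P f hP x0 y0 h00 φ ψ hx hy hxy)

end Pool.Agent.Y835.ZM
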