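import Pool.Agent.Y835.ZM.Emb

/-!
Lower bounds for the zero-information complexity of (sparse) set disjointness.
-/

namespace Pool.Agent.Y835.ZM

open Finset Filter Topology Pool.Agent.H570R2 Pool.Agent.H841

/-- The subsets of an `n`-element set with at most `k` elements. -/
abbrev Sparse (n k : ℕ) : Type :=
  {x : Fin n → Bool // (univ.filter (fun i => x i = true)).card ≤ k}

/-- Disjointness of sets with at most `k` elements. -/
def SDISJ (n k : ℕ) (x y : Sparse n k) : Bool := DISJ n x.1 y.1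

lemma card_emb {n q b : ℕ} (e : Fin q × Fin b → Fin n) (x : Fin q → Fin b) :
    (univ.filter (fun i => emb e x i = true)).card ≤ q := by
  have h1 : univ.filter (fun i => emb e x i = true) ⊆ univ.image (fun l => e (l, x l)) := by
    intro i hi
    rw [Finset.mem_filter] at hi
    unfold emb at hi
    rw [decide_eq_true_iff] at hi
    obtain ⟨l, hl⟩ := hi.2
    rw [Finset.mem_image]
    exact ⟨l, Finset.mem_univ _, hl⟩
  calc _ ≤ (univ.image (fun l => e (l, x l))).card := Finset.card_le_card h1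
    _ ≤ (univ : Finset (Fin q)).card := Finset.card_image_le
    _ = q := by simp

lemma card_zeroIn (n k : ℕ) : (univ.filter (fun i => zeroIn n i = true)).card ≤ k := by
  simp [zeroIn]

/-- The number of labels of a protocol for sparse disjointness. -/
theorem labels_sparse (t n k : ℕ) (ht : 1000000 ≤ t) (hn : t ^ 118 ≤ n) (hln : Real.log n ≤ t)
    (hk : t ^ 18 ≤ k) (P : AMProtocol (Sparse n k) (Sparse n k)) (hP : P.IsZAM (SDISJ n k)) :
    (n / t ^ 18) ^ t < P.m := by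
  have ht0 : 0 < t ^ 18 := by positivity
  have hb1 : t ^ 100 ≤ n / t ^ 18 := by
    rw [Nat.le_div_iff_mul_le ht0, ← pow_add]
    exact hn
  have hb2 : Real.log ((n / t ^ 18 : ℕ) : ℝ) ≤ t := by
    have hpos : 0 < n / t ^ 18 := lt_of_lt_of_le (by positivity) hb1
    refine le_trans (Real.log_le_log (by exact_mod_cast hpos) ?_) hln
    exact_mod_cast Nat.div_le_self _ _
  have hinj : ∃ e : Fin (t ^ 18) × Fin (n / t ^ 18) → Fin n, Function.Injective e := by
    have h1 : Fintype.card (Fin (t ^ 18) × Fin (n / t ^ 18)) ≤ Fintype.card (Fin n) := by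
      rw [Fintype.card_prod, Fintype.card_fin, Fintype.card_fin, Fintype.card_fin]
      exact Nat.mul_div_le _ _
    obtain ⟨e⟩ := Function.Embedding.nonempty_of_card_le h1
    exact ⟨e, e.injective⟩
  obtain ⟨e, he⟩ := hinj
  refine labels_gtG t ht (n / t ^ 18) hb1 hb2 P (SDISJ n k) hP ⟨zeroIn n, card_zeroIn n k⟩
    ⟨zeroIn n, card_zeroIn n k⟩ (DISJ_zero_left n _)
    (fun x => ⟨emb e x, (card_emb e x).trans hk⟩) (fun y => ⟨emb e y, (card_emb e y).trans hk⟩)
    (fun x => DISJ_zero_right n _) (fun y => DISJ_zero_left n _) ?_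
  intro x y
  exact emb_disj e he x y

/-- The number of labels of a protocol for disjointness. -/
theorem labels_full (t n : ℕ) (ht : 1000000 ≤ t) (hn : t ^ 118 ≤ n) (hln : Real.log n ≤ t)
    (P : AMProtocol (Fin n → Bool) (Fin n → Bool)) (hP : P.IsZAM (DISJ n)) :
    (n / t ^ 18) ^ t < P.m := by
  have ht0 : 0 < t ^ 18 := by positivity
  have hb1 : t ^ 100 ≤ n / t ^ 18 := by
    rw [Nat.le_div_iff_mul_le ht0, ← pow_add]
    exact hn
  have hb2 : Real.log ((n / t ^ 18 : ℕ) : ℝ) ≤ t := by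
    have hpos : 0 < n / t ^ 18 := lt_of_lt_of_le (by positivity) hb1
    refine le_trans (Real.log_le_log (by exact_mod_cast hpos) ?_) hln
    exact_mod_cast Nat.div_le_self _ _
  have hinj : ∃ e : Fin (t ^ 18) × Fin (n / t ^ 18) → Fin n, Function.Injective e := by
    have h1 : Fintype.card (Fin (t ^ 18) × Fin (n / t ^ 18)) ≤ Fintype.card (Fin n) := by
      rw [Fintype.card_prod, Fintype.card_fin, Fintype.card_fin, Fintype.card_fin]
      exact Nat.mul_div_le _ _
    obtain ⟨e⟩ := Function.Embedding.nonempty_of_card_le h1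
    exact ⟨e, e.injective⟩
  obtain ⟨e, he⟩ := hinj
  exact labels_gtG t ht (n / t ^ 18) hb1 hb2 P (DISJ n) hP (zeroIn n)
    (zeroIn n) (DISJ_zero_left n _) (fun x => emb e x) (fun y => emb e y)
    (fun x => DISJ_zero_right n _) (fun y => DISJ_zero_left n _) (fun x y => emb_disj e he x y)

/-- `(t / 2) log₂ n` from the number of labels. -/
lemma half_log (t n m : ℕ) (ht : 1000000 ≤ t) (hn : t ^ 118 ≤ n) (hm : (n / t ^ 18) ^ t < m) :
    (t : ℝ) / 2 * Real.logb 2 n ≤ (Nat.clog 2 m : ℕ) := by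
  have ht0 : (0 : ℝ) < t := by
    have : (1000000 : ℝ) ≤ t := by exact_mod_cast ht
    linarith
  have hn1 : 0 < n := lt_of_lt_of_le (by positivity) hn
  have hn0 : (0 : ℝ) < n := by exact_mod_cast hn1
  -- `n ≤ (n / t ^ 18) ^ 2`
  have h1 : n ≤ (n / t ^ 18) ^ 2 := by
    set b := n / t ^ 18 with hb
    have hb1 : t ^ 100 ≤ b := by
      rw [hb, Nat.le_div_iff_mul_le (by positivity), ← pow_add]
      exact hn
    have h2 : n < t ^ 18 * (b + 1) := Nat.lt_mul_div_succ n (by positivity)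
    have h3 : t ^ 18 * (b + 1) ≤ b ^ 2 := by
      have h4 : t ^ 18 * 2 ≤ t ^ 100 := by
        calc t ^ 18 * 2 ≤ t ^ 18 * t := Nat.mul_le_mul_left _ (by omega)
          _ = t ^ 19 := (pow_succ _ _).symm
          _ ≤ t ^ 100 := Nat.pow_le_pow_right (by omega) (by norm_num)
      have h5 : 1 ≤ b := le_trans (Nat.one_le_pow _ _ (by omega)) hb1
      calc t ^ 18 * (b + 1) ≤ t ^ 18 * (2 * b) := Nat.mul_le_mul_left _ (by omega)
        _ = (t ^ 18 * 2) * b := by ring
        _ ≤ t ^ 100 * b := Nat.mul_le_mul_right _ h4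
        _ ≤ b * b := Nat.mul_le_mul_right _ hb1
        _ = b ^ 2 := (sq b).symm
    omega
  have h2 : n ^ t ≤ m ^ 2 := by
    calc n ^ t ≤ ((n / t ^ 18) ^ 2) ^ t := Nat.pow_le_pow_left h1 t
      _ = ((n / t ^ 18) ^ t) ^ 2 := by rw [← pow_mul, ← pow_mul, mul_comm]
      _ ≤ m ^ 2 := Nat.pow_le_pow_left hm.le 2
  have h3 : m ≤ 2 ^ Nat.clog 2 m := Nat.le_pow_clog (by norm_num) m
  have h4 : n ^ t ≤ 2 ^ (Nat.clog 2 m * 2) := by
    calc n ^ t ≤ m ^ 2 := h2
      _ ≤ (2 ^ Nat.clog 2 m) ^ 2 := Nat.pow_le_pow_left h3 2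
      _ = 2 ^ (Nat.clog 2 m * 2) := (pow_mul _ _ _).symm
  have h5 : ((n : ℝ)) ^ t ≤ (2 : ℝ) ^ (Nat.clog 2 m * 2) := by exact_mod_cast h4
  have h6 := Real.logb_le_logb_of_le (b := 2) (by norm_num) (by positivity) h5
  rw [Real.logb_pow, Real.logb_pow, Real.logb_self_eq_one (by norm_num)] at h6
  push_cast at h6
  linarith

/-- The bound for sparse disjointness. -/
theorem zam_sparse (t n k : ℕ) (ht : 1000000 ≤ t) (hn : t ^ 118 ≤ n) (hln : Real.log n ≤ t)
    (hk : t ^ 18 ≤ k) :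
    ENNReal.ofReal ((t : ℝ) / 2 * Real.logb 2 n) ≤ ((ZAM (SDISJ n k) : ℕ∞) : ENNReal) := by
  have h0 : ((⌈(t : ℝ) / 2 * Real.logb 2 n⌉₊ : ℕ) : ℕ∞) ≤ ZAM (SDISJ n k) := by
    unfold ZAM
    apply le_iInf
    intro P
    apply le_iInf
    intro hP
    rw [Nat.cast_le]
    unfold AMProtocol.cost
    exact Nat.ceil_le.2 (half_log t n P.m ht hn (labels_sparse t n k ht hn hln hk P hP))
  calc ENNReal.ofReal ((t : ℝ) / 2 * Real.logb 2 n)
      ≤ ENNReal.ofReal ((⌈(t : ℝ) / 2 * Real.logb 2 n⌉₊ : ℕ) : ℝ) :=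
        ENNReal.ofReal_le_ofReal (Nat.le_ceil _)
    _ = (((⌈(t : ℝ) / 2 * Real.logb 2 n⌉₊ : ℕ) : ℕ∞) : ENNReal) := by
        rw [ENNReal.ofReal_natCast]; rfl
    _ ≤ ((ZAM (SDISJ n k) : ℕ∞) : ENNReal) := ENat.toENNReal_le.2 h0

/-- The bound for disjointness. -/
theorem zam_full (t n : ℕ) (ht : 1000000 ≤ t) (hn : t ^ 118 ≤ n) (hln : Real.log n ≤ t) :
    ENNReal.ofReal ((t : ℝ) / 2 * Real.logb 2 n) ≤ ((ZAM (DISJ n) : ℕ∞) : ENNReal) := by
  have h0 : ((⌈(t : ℝ) / 2 * Real.logb 2 n⌉₊ : ℕ) : ℕ∞) ≤ ZAM (DISJ n) := by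
    unfold ZAM
    apply le_iInf
    intro P
    apply le_iInf
    intro hP
    rw [Nat.cast_le]
    unfold AMProtocol.cost
    exact Nat.ceil_le.2 (half_log t n P.m ht hn (labels_full t n ht hn hln P hP))
  calc ENNReal.ofReal ((t : ℝ) / 2 * Real.logb 2 n)
      ≤ ENNReal.ofReal ((⌈(t : ℝ) / 2 * Real.logb 2 n⌉₊ : ℕ) : ℝ) :=
        ENNReal.ofReal_le_ofReal (Nat.le_ceil _)
    _ = (((⌈(t : ℝ) / 2 * Real.logb 2 n⌉₊ : ℕ) : ℕ∞) : ENNReal) := by
        rw [ENNReal.ofReal_natCast]; rfl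
    _ ≤ ((ZAM (DISJ n) : ℕ∞) : ENNReal) := ENat.toENNReal_le.2 h0

/-- A power of `log n` is at most a power of `n`. -/
lemma log_pow_le (a : ℕ) : ∀ᶠ n : ℕ in atTop, (Real.log n + 1) ^ a ≤ (n : ℝ) := by
  have h1 := (isLittleO_log_rpow_atTop (r := (1 : ℝ) / (2 * (a + 1))) (by positivity)).bound
    (show (0 : ℝ) < 1 / 2 by norm_num)
  have h2 := (tendsto_natCast_atTop_atTop (R := ℝ)).eventually h1
  have h3 := (tendsto_natCast_atTop_atTop (R := ℝ)).eventually
    ((tendsto_rpow_atTop (y := (1 : ℝ) / (2 * (a + 1))) (by positivity)).eventually_ge_atTop 2)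
  filter_upwards [h2, h3, eventually_ge_atTop 1] with n hn hn3 hn1
  have hnR : (1 : ℝ) ≤ n := by exact_mod_cast hn1
  have hlog : 0 ≤ Real.log n := Real.log_nonneg hnR
  set y : ℝ := (n : ℝ) ^ ((1 : ℝ) / (2 * (a + 1))) with hy
  have hy0 : 0 ≤ y := by positivity
  rw [Real.norm_of_nonneg hlog, Real.norm_of_nonneg hy0] at hn
  have h4 : Real.log n + 1 ≤ y := by linarith
  have h5 : y ^ (2 * (a + 1)) = n := by
    rw [hy, ← Real.rpow_natCast, ← Real.rpow_mul (by linarith)]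
    push_cast
    rw [one_div_mul_cancel (by positivity), Real.rpow_one]
  calc (Real.log n + 1) ^ a ≤ y ^ a := pow_le_pow_left₀ (by linarith) h4 a
    _ ≤ y ^ (2 * (a + 1)) := pow_le_pow_right₀ (by linarith) (by omega)
    _ = n := h5

/-- A power of `n` is a lower bound. -/
theorem zam_power : ∀ᶠ n : ℕ in atTop,
    ENNReal.ofReal ((n : ℝ) ^ ((1 : ℝ) / 118)) ≤ ((ZAM (DISJ n) : ℕ∞) : ENNReal) := by
  have hlog : ∀ᶠ n : ℕ in atTop, Real.log n + 1 ≤ (n : ℝ) ^ ((1 : ℝ) / 118) := by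
    filter_upwards [log_pow_le 118, eventually_ge_atTop 1] with n hn hn1
    have hnR : (1 : ℝ) ≤ n := by exact_mod_cast hn1
    have h0 : 0 ≤ Real.log n := Real.log_nonneg hnR
    have h1 := Real.rpow_le_rpow (by positivity) hn (show (0 : ℝ) ≤ 1 / 118 by norm_num)
    rw [← Real.rpow_natCast, ← Real.rpow_mul (by linarith)] at h1
    norm_num at h1
    simpa using h1
  have hbig := (tendsto_natCast_atTop_atTop (R := ℝ)).eventually
    ((tendsto_rpow_atTop (y := (1 : ℝ) / 118) (by positivity)).eventually_ge_atTop 1000001)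
  filter_upwards [hlog, hbig, eventually_ge_atTop 2] with n h1 h2 hn2
  have hnR : (2 : ℝ) ≤ n := by exact_mod_cast hn2
  set y : ℝ := (n : ℝ) ^ ((1 : ℝ) / 118) with hy
  have hy0 : 0 ≤ y := by positivity
  set t : ℕ := ⌊y⌋₊ with ht
  have ht1 : (t : ℝ) ≤ y := Nat.floor_le hy0
  have ht2 : y < t + 1 := Nat.lt_floor_add_one y
  have ht3 : 1000000 ≤ t := by
    have : (1000000 : ℝ) < t + 1 := by linarith
    have h4 : (1000000 : ℕ) < t + 1 := by exact_mod_cast this
    omega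
  have hyn : y ^ 118 = n := by
    rw [hy, ← Real.rpow_natCast, ← Real.rpow_mul (by linarith)]
    norm_num
  have hn : t ^ 118 ≤ n := by
    have h4 : (t : ℝ) ^ 118 ≤ n := by
      rw [← hyn]
      exact pow_le_pow_left₀ (Nat.cast_nonneg _) ht1 118
    exact_mod_cast h4
  refine le_trans (ENNReal.ofReal_le_ofReal ?_) (zam_full t n ht3 hn (by linarith))
  have ht4 : (1000000 : ℝ) ≤ t := by exact_mod_cast ht3
  have hlb : 4 ≤ Real.logb 2 n := by
    rw [Real.le_logb_iff_rpow_le (by norm_num) (by linarith)]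
    have h5 : (2 : ℝ) ^ (4 : ℝ) = 16 := by norm_num
    rw [h5]
    have h6 : (t : ℝ) ^ 118 ≤ n := by exact_mod_cast hn
    have h7 : (16 : ℝ) ≤ (t : ℝ) ^ 118 := by
      calc (16 : ℝ) ≤ t := by linarith
        _ = (t : ℝ) ^ 1 := (pow_one _).symm
        _ ≤ (t : ℝ) ^ 118 := pow_le_pow_right₀ (by linarith) (by norm_num)
    linarith
  nlinarith

/-- Sparse disjointness, for sets of polylogarithmic size. -/
theorem zam_polylog (k : ℕ → ℕ) (hk : ∀ᶠ n : ℕ in atTop, Real.log n ^ 19 ≤ (k n : ℝ)) :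
    Tendsto (fun n : ℕ => ((ZAM (SDISJ n (k n)) : ℕ∞) : ENNReal) /
      ENNReal.ofReal (Real.logb 2 n)) atTop (𝓝 ⊤) := by
  rw [ENNReal.tendsto_nhds_top_iff_nat]
  intro C
  have hlogtop : Tendsto (fun n : ℕ => Real.log (n : ℝ)) atTop atTop :=
    Real.tendsto_log_atTop.comp tendsto_natCast_atTop_atTop
  filter_upwards [hk, log_pow_le 118, hlogtop.eventually_ge_atTop (2 ^ 18),
    hlogtop.eventually_ge_atTop 1000000, hlogtop.eventually_ge_atTop (2 * (C + 1)),
    eventually_ge_atTop 2] with n h1 h2 h3 h4 h5 hn2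
  have hnR : (2 : ℝ) ≤ n := by exact_mod_cast hn2
  set l : ℝ := Real.log n with hl
  set t : ℕ := ⌈l⌉₊ with ht
  have hl0 : 0 ≤ l := by linarith
  have ht1 : l ≤ t := Nat.le_ceil l
  have ht2 : (t : ℝ) < l + 1 := Nat.ceil_lt_add_one hl0
  have ht3 : 1000000 ≤ t := by
    have : (1000000 : ℝ) ≤ t := by linarith
    exact_mod_cast this
  have hn : t ^ 118 ≤ n := by
    have h6 : (t : ℝ) ^ 118 ≤ n :=
      (pow_le_pow_left₀ (Nat.cast_nonneg _) ht2.le 118).trans h2
    exact_mod_cast h6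
  have hkt : t ^ 18 ≤ k n := by
    have h6 : (t : ℝ) ^ 18 ≤ k n := by
      calc (t : ℝ) ^ 18 ≤ (2 * l) ^ 18 := pow_le_pow_left₀ (Nat.cast_nonneg _) (by linarith) 18
        _ = 2 ^ 18 * l ^ 18 := mul_pow _ _ _
        _ ≤ l * l ^ 18 := mul_le_mul_of_nonneg_right h3 (by positivity)
        _ = l ^ 19 := (pow_succ' _ _).symm
        _ ≤ k n := h1
    exact_mod_cast h6
  have key := zam_sparse t n (k n) ht3 hn ht1 hkt
  have hlog : 0 < Real.logb 2 n := Real.logb_pos (by norm_num) (by linarith)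
  rw [ENNReal.lt_div_iff_mul_lt (Or.inl (by simpa using hlog)) (Or.inl ENNReal.ofReal_ne_top)]
  refine lt_of_lt_of_le ?_ key
  have h7 : (C : ENNReal) = ENNReal.ofReal (C : ℝ) := (ENNReal.ofReal_natCast C).symm
  rw [h7, ← ENNReal.ofReal_mul (Nat.cast_nonneg _)]
  apply (ENNReal.ofReal_lt_ofReal_iff (by positivity)).2
  apply mul_lt_mul_of_pos_right _ hlog
  linarith

/-- Superlogarithmic lower bound for disjointness. -/
theorem zam_superlog :
    Tendsto (fun n : ℕ => ((ZAM (DISJ n) : ℕ∞) : ENNReal) /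
      ENNReal.ofReal (Real.logb 2 n)) atTop (𝓝 ⊤) := by
  rw [ENNReal.tendsto_nhds_top_iff_nat]
  intro C
  have hlogtop : Tendsto (fun n : ℕ => Real.log (n : ℝ)) atTop atTop :=
    Real.tendsto_log_atTop.comp tendsto_natCast_atTop_atTop
  filter_upwards [log_pow_le 118,
    hlogtop.eventually_ge_atTop 1000000, hlogtop.eventually_ge_atTop (2 * (C + 1)),
    eventually_ge_atTop 2] with n h2 h4 h5 hn2
  have hnR : (2 : ℝ) ≤ n := by exact_mod_cast hn2
  set l : ℝ := Real.log n with hl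
  set t : ℕ := ⌈l⌉₊ with ht
  have hl0 : 0 ≤ l := by linarith
  have ht1 : l ≤ t := Nat.le_ceil l
  have ht2 : (t : ℝ) < l + 1 := Nat.ceil_lt_add_one hl0
  have ht3 : 1000000 ≤ t := by
    have : (1000000 : ℝ) ≤ t := by linarith
    exact_mod_cast this
  have hn : t ^ 118 ≤ n := by
    have h6 : (t : ℝ) ^ 118 ≤ n :=
      (pow_le_pow_left₀ (Nat.cast_nonneg _) ht2.le 118).trans h2
    exact_mod_cast h6
  have key := zam_full t n ht3 hn ht1
  have hlog : 0 < Real.logb 2 n := Real.logb_pos (by norm_num) (by linarith)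
  rw [ENNReal.lt_div_iff_mul_lt (Or.inl (by simpa using hlog)) (Or.inl ENNReal.ofReal_ne_top)]
  refine lt_of_lt_of_le ?_ key
  have h7 : (C : ENNReal) = ENNReal.ofReal (C : ℝ) := (ENNReal.ofReal_natCast C).symm
  rw [h7, ← ENNReal.ofReal_mul (Nat.cast_nonneg _)]
  apply (ENNReal.ofReal_lt_ofReal_iff (by positivity)).2
  apply mul_lt_mul_of_pos_right _ hlog
  linarith

/-- Pulling back a protocol. -/
def pull {X Y X' Y' : Type} (P : AMProtocol X Y) (φ : X' → X) (ψ : Y' → Y) : AMProtocol X' Y' where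
  R := P.R
  Q := P.Q
  finR := P.finR
  finQ := P.finQ
  neR := P.neR
  neQ := P.neQ
  m := P.m
  A := fun i => {a | (φ a.1, a.2) ∈ P.A i}
  B := fun i => {a | (ψ a.1, a.2) ∈ P.B i}

/-- A function is at least as hard as the functions which it contains. -/
theorem zam_mono {X Y X' Y' : Type} (f : X → Y → Bool) (g : X' → Y' → Bool) (φ : X' → X)
    (ψ : Y' → Y) (h : ∀ x y, f (φ x) (ψ y) = g x y) : ZAM g ≤ ZAM f := by
  unfold ZAM
  refine le_iInf fun P => le_iInf fun hP => ?_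
  refine iInf₂_le_of_le (pull P φ ψ) ?_ le_rfl
  exact
    { completeness := fun x y hxy => hP.completeness (φ x) (ψ y) ((h x y).trans hxy)
      soundness := fun x y hxy => hP.soundness (φ x) (ψ y) ((h x y).trans hxy)
      unambiguous := fun x y hxy => hP.unambiguous (φ x) (ψ y) ((h x y).trans hxy)
      zeroInformation := fun x y x' y' hxy hxy' => hP.zeroInformation (φ x) (ψ y) (φ x') (ψ y')
        ((h x y).trans hxy) ((h x' y').trans hxy') }

end Pool.Agent.Y835.ZM
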